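import Mathlib
import Pool.Agent.MP_de770b_mp.ToSys

/-!
The arrangement of a vee-system is simplicial.
-/

set_option linter.unusedSectionVars false

namespace Pool.Agent.VeeR

open Module Submodule Pool.Agent.MP_de770b_mp

variable {ι : Type*} [Fintype ι]
  {V : Type*} [AddCommGroup V] [Module ℝ V] [FiniteDimensional ℝ V] {α : ι → Dual ℝ V}

/-- the vectors indexed by `B` generate the cone of all vectors -/
def SimpGen (a : ι → Dual ℝ V) (B : Finset ι) : Prop :=
  ∀ i, ∃ x : ι → ℝ, (∀ j, 0 ≤ x j) ∧ a i = ∑ j ∈ B, x j • a j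

theorem simp_minimal (a : ι → Dual ℝ V) : ∃ B : Finset ι, SimpGen a B ∧
    ∀ B' : Finset ι, SimpGen a B' → B.card ≤ B'.card := by
  classical
  have huniv : SimpGen a Finset.univ := by
    intro i
    refine ⟨fun j => if j = i then 1 else 0, fun j => by
      show (0 : ℝ) ≤ if j = i then 1 else 0
      split_ifs <;> norm_num, ?_⟩
    simp [ite_smul]
  obtain ⟨B, hB, hmin⟩ := Finset.exists_min_image
    ((Finset.univ : Finset (Finset ι)).filter (fun B => SimpGen a B)) (fun B => B.card)
    ⟨Finset.univ, by simp [huniv]⟩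
  refine ⟨B, (Finset.mem_filter.mp hB).2, fun B' hB' => hmin B' (by simp [hB'])⟩

theorem simp_extreme [DecidableEq ι] (a : ι → Dual ℝ V) (B : Finset ι) (hB : SimpGen a B)
    (hmin : ∀ B' : Finset ι, SimpGen a B' → B.card ≤ B'.card) {j : ι} (hj : j ∈ B)
    (y : ι → ℝ) (hy : ∀ k, 0 ≤ y k) (h : a j = ∑ k ∈ B.erase j, y k • a k) : False := by
  have h1 : SimpGen a (B.erase j) := by
    intro i
    obtain ⟨x, hx, hx2⟩ := hB i
    refine ⟨fun k => x j * y k + x k, fun k => add_nonneg (mul_nonneg (hx j) (hy k)) (hx k), ?_⟩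
    have h2 : ∑ k ∈ B, x k • a k = x j • a j + ∑ k ∈ B.erase j, x k • a k :=
      (Finset.add_sum_erase B (fun k => x k • a k) hj).symm
    rw [hx2, h2]
    simp only [add_smul, mul_smul, Finset.sum_add_distrib]
    rw [← Finset.smul_sum, ← h]
  have h3 := hmin _ h1
  rw [Finset.card_erase_of_mem hj] at h3
  have h4 : 0 < B.card := Finset.card_pos.mpr ⟨j, hj⟩
  omega

theorem simp_coeff [DecidableEq ι] (a : ι → Dual ℝ V) (v : V) (hv : ∀ i, 0 < a i v) (B : Finset ι)
    (hB : SimpGen a B) (hmin : ∀ B' : Finset ι, SimpGen a B' → B.card ≤ B'.card)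
    {i j : ι} (hi : i ∈ B) (hj : j ∈ B) (hij : i ≠ j) {k : ι} {p q : ℝ}
    (h : a k = p • a i + q • a j) : 0 ≤ p := by
  by_contra hp
  push Not at hp
  obtain ⟨x, hx, hx2⟩ := hB k
  have hib : i ∈ B.erase j := Finset.mem_erase.mpr ⟨hij, hi⟩
  have h2 : ∑ k ∈ B, x k • a k = x j • a j + ∑ k ∈ B.erase j, x k • a k :=
    (Finset.add_sum_erase B (fun k => x k • a k) hj).symm
  set y : ι → ℝ := fun m => x m + (if m = i then -p else 0) with hy
  have hy0 : ∀ m, 0 ≤ y m := by
    intro m
    simp only [hy]
    split_ifs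
    · have := hx m; linarith
    · simpa using hx m
  have hsum : (q - x j) • a j = ∑ m ∈ B.erase j, y m • a m := by
    have h3 : ∑ m ∈ B.erase j, y m • a m = ∑ m ∈ B.erase j, x m • a m + (-p) • a i := by
      simp only [hy, add_smul, Finset.sum_add_distrib, ite_smul, zero_smul]
      rw [Finset.sum_ite_eq' (B.erase j) i (fun m => (-p) • a m), if_pos hib]
    rw [h3]
    have h4 : p • a i + q • a j = x j • a j + ∑ k ∈ B.erase j, x k • a k := by
      rw [← h, hx2, h2]
    have h5 : ∑ k ∈ B.erase j, x k • a k = p • a i + q • a j - x j • a j := by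
      rw [h4]; abel
    rw [h5]; module
  by_cases hq : 0 < q - x j
  · apply simp_extreme a B hB hmin hj (fun m => (q - x j)⁻¹ * y m)
      (fun m => mul_nonneg (inv_nonneg.mpr hq.le) (hy0 m))
    have h6 : a j = (q - x j)⁻¹ • ((q - x j) • a j) := by
      rw [smul_smul, inv_mul_cancel₀ hq.ne', one_smul]
    rw [h6, hsum, Finset.smul_sum]
    exact Finset.sum_congr rfl fun m _ => by rw [smul_smul]
  · push Not at hq
    have h7 := congrArg (fun f : Dual ℝ V => f v) hsum
    simp only [LinearMap.smul_apply, smul_eq_mul, LinearMap.sum_apply] at h7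
    have h8 : (q - x j) * a j v ≤ 0 := mul_nonpos_of_nonpos_of_nonneg hq (hv j).le
    have h9 : y i * a i v ≤ ∑ m ∈ B.erase j, y m * a m v :=
      Finset.single_le_sum (f := fun m => y m * a m v)
        (fun m _ => mul_nonneg (hy0 m) (hv m).le) hib
    have h10 : 0 < y i := by
      simp only [hy, if_true]
      have := hx i; linarith
    have h11 := mul_pos h10 (hv i)
    linarith

theorem simplicial (hα : IsVeeSystem α) (v : V) (hv : ∀ i, α i v ≠ 0) :
    ∃ B : Finset ι, LinearIndepOn ℝ α (B : Set ι) ∧ span ℝ (α '' (B : Set ι)) = ⊤ ∧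
      (∀ w : V, (∀ i ∈ B, 0 < α i v * α i w) → ∀ i, 0 < α i v * α i w) ∧
      ∀ i ∈ B, ∀ j ∈ B, i ≠ j → α i v * α j v * α i (vee α (α j)) ≤ 0 := by
  classical
  have hs := hα.spans
  obtain ⟨a, ha⟩ : ∃ a : ι → Dual ℝ V, ∀ i, a i = α i v • α i := ⟨_, fun _ => rfl⟩
  have hav : ∀ i, 0 < a i v := by
    intro i
    simp only [ha, LinearMap.smul_apply, smul_eq_mul]
    exact mul_self_pos.mpr (hv i)
  obtain ⟨B, hB, hmin⟩ := simp_minimal a
  -- pairwise scalar products
  have hpair : ∀ i ∈ B, ∀ j ∈ B, i ≠ j → α i v * α j v * α i (vee α (α j)) ≤ 0 := by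
    intro i hi j hj hij
    by_contra hcon
    push Not at hcon
    have hK : gram α i j ≠ 0 := by
      intro h0
      have h1 : α i (vee α (α j)) = 0 := h0
      rw [h1, mul_zero] at hcon
      exact lt_irrefl _ hcon
    have h3 : 3 ≤ (fl α i j).card := by
      by_contra h3
      push Not at h3
      exact hK (gram_two hα hij h3)
    obtain ⟨ν, hν⟩ := exists_nu hα hij h3
    have hco : ∀ l ∈ fl α i j, ∃ pq : ℝ × ℝ, a l = pq.1 • a i + pq.2 • a j := by
      intro l hl
      obtain ⟨s, t, hst⟩ := mem_span_pair.mp (mem_fl.mp hl)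
      refine ⟨(α l v * s * (α i v)⁻¹, α l v * t * (α j v)⁻¹), ?_⟩
      simp only [ha]
      rw [smul_smul, smul_smul, ← hst]
      have e1 : α l v * s * (α i v)⁻¹ * α i v = α l v * s := by
        rw [mul_assoc, inv_mul_cancel₀ (hv i), mul_one]
      have e2 : α l v * t * (α j v)⁻¹ * α j v = α l v * t := by
        rw [mul_assoc, inv_mul_cancel₀ (hv j), mul_one]
      rw [hst, e1, e2]
      have e3 : α l v • α l = α l v • (s • α i + t • α j) := by rw [hst]
      rw [e3]
      module
    choose! c hc using hco
    have hpos1 : ∀ l ∈ fl α i j, 0 ≤ (c l).1 := fun l hl =>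
      simp_coeff a v hav B hB hmin hi hj hij (hc l hl)
    have hpos2 : ∀ l ∈ fl α i j, 0 ≤ (c l).2 := fun l hl =>
      simp_coeff a v hav B hB hmin hj hi hij.symm (by rw [hc l hl]; abel)
    -- the vector identity, paired with everything
    have hvec : ∑ l ∈ fl α i j, gram α i l • α l = ν • α i := by
      have h4 : ∀ m, ∑ l ∈ fl α i j, gram α i l * gram α l m = ν * gram α i m := fun m =>
        gram_nu hα hν (left_mem_fl α i j) m
      apply evalMap_injective hs
      funext m
      rw [map_sum, map_smul]
      simp only [map_smul, Finset.sum_apply, Pi.smul_apply, smul_eq_mul, evalMap_self]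
      exact h4 m
    have hvec2 : ∑ l ∈ fl α i j, (α i v * gram α i l * (α l v)⁻¹) • a l = (ν * α i v) • α i := by
      have : ∀ l ∈ fl α i j, (α i v * gram α i l * (α l v)⁻¹) • a l
          = α i v • (gram α i l • α l) := by
        intro l _
        simp only [ha]
        rw [smul_smul, smul_smul, mul_assoc (α i v * gram α i l), inv_mul_cancel₀ (hv l), mul_one]
      rw [Finset.sum_congr rfl this, ← Finset.smul_sum, hvec, smul_smul, mul_comm]
    set w : ι → ℝ := fun l => α i v * gram α i l * (α l v)⁻¹ with hw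
    have hvec3 : (∑ l ∈ fl α i j, w l * (c l).1) • a i + (∑ l ∈ fl α i j, w l * (c l).2) • a j
        = ν • a i := by
      have : ν • a i = ∑ l ∈ fl α i j, w l • a l := by
        rw [hvec2]
        simp only [ha]
        rw [smul_smul]
      rw [this]
      have h5 : ∀ l ∈ fl α i j, w l • a l = (w l * (c l).1) • a i + (w l * (c l).2) • a j := by
        intro l hl
        have h6 : w l • a l = w l • ((c l).1 • a i + (c l).2 • a j) := by rw [← hc l hl]
        rw [h6, smul_add, smul_smul, smul_smul]
      rw [Finset.sum_congr rfl h5, Finset.sum_add_distrib, Finset.sum_smul, Finset.sum_smul]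
    have hli : LinearIndependent ℝ ![a i, a j] := by
      have h6 := hα.noncollinear i j hij
      rw [LinearIndependent.pair_iff] at h6 ⊢
      intro s t hst
      simp only [ha] at hst
      rw [smul_smul, smul_smul] at hst
      obtain ⟨h7, h8⟩ := h6 _ _ hst
      exact ⟨(mul_eq_zero.mp h7).resolve_right (hv i), (mul_eq_zero.mp h8).resolve_right (hv j)⟩
    rw [LinearIndependent.pair_iff] at hli
    have h9 : ∑ l ∈ fl α i j, w l * (c l).2 = 0 := (hli (∑ l ∈ fl α i j, w l * (c l).1 - ν) _ (by
      rw [sub_smul, sub_add_eq_add_sub, hvec3, sub_self])).2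
    -- all weights are nonnegative
    have hform : ∀ l, α i v * α l v * gram α i l = (a i) (vee α (a l)) := by
      intro l
      simp only [ha]
      rw [vee_smul hs, LinearMap.smul_apply, map_smul, smul_eq_mul, smul_eq_mul]
      change _ = α i v * (α l v * gram α i l)
      ring
    have hwl : ∀ l ∈ fl α i j, 0 ≤ w l := by
      intro l hl
      have h10 : 0 ≤ α i v * α l v * gram α i l := by
        rw [hform, hc l hl, vee_add hs, vee_smul hs, vee_smul hs, map_add, map_smul, map_smul,
          smul_eq_mul, smul_eq_mul, ← hform i, ← hform j]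
        apply add_nonneg
        · apply mul_nonneg (hpos1 l hl)
          exact mul_nonneg (mul_self_nonneg _) (gram_pos hα i).le
        · exact mul_nonneg (hpos2 l hl) hcon.le
      have h11 : w l = α i v * α l v * gram α i l * ((α l v)⁻¹ * (α l v)⁻¹) := by
        simp only [hw]
        have := hv l
        field_simp
      rw [h11]
      exact mul_nonneg h10 (mul_self_nonneg _)
    have h12 := (Finset.sum_eq_zero_iff_of_nonneg (fun l hl =>
      mul_nonneg (hwl l hl) (hpos2 l hl))).mp h9 j (right_mem_fl α i j)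
    have h13 : (c j).2 = 1 := by
      have h14 := hc j (right_mem_fl α i j)
      have h15 := (hli (c j).1 ((c j).2 - 1) (by rw [sub_smul, one_smul, ← add_sub_assoc, ← h14,
        sub_self])).2
      linarith
    rw [h13, mul_one] at h12
    simp only [hw] at h12
    have h16 : α i v * gram α i j = 0 := by
      rcases mul_eq_zero.mp h12 with h | h
      · exact h
      · exact absurd h (inv_ne_zero (hv j))
    rcases mul_eq_zero.mp h16 with h | h
    · exact hv i h
    · exact hK h
  refine ⟨B, ?_, ?_, ?_, hpair⟩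
  · -- linear independence
    rw [linearIndepOn_finset_iff]
    intro f hf
    set y : ι → ℝ := fun i => f i * (α i v)⁻¹ with hy
    have hy1 : ∑ i ∈ B, y i • a i = 0 := by
      rw [← hf]
      apply Finset.sum_congr rfl
      intro i _
      simp only [hy, ha]
      rw [smul_smul, mul_assoc, inv_mul_cancel₀ (hv i), mul_one]
    set Bp := B.filter (fun i => 0 < y i) with hBp
    set Bm := B.filter (fun i => ¬ 0 < y i) with hBm
    have hsplit : ∑ i ∈ Bp, y i • a i = ∑ i ∈ Bm, (- y i) • a i := by
      have h1 := Finset.sum_filter_add_sum_filter_not B (fun i => 0 < y i) (fun i => y i • a i)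
      rw [hy1] at h1
      have h2 : ∑ i ∈ Bm, (- y i) • a i = - ∑ i ∈ Bm, y i • a i := by
        rw [← Finset.sum_neg_distrib]
        exact Finset.sum_congr rfl fun i _ => neg_smul (y i) (a i)
      rw [h2]
      exact eq_neg_of_add_eq_zero_left h1
    set W : Dual ℝ V := ∑ i ∈ Bp, y i • a i with hW
    have hveeS : ∀ (S : Finset ι) (z : ι → ℝ), vee α (∑ i ∈ S, z i • a i)
        = ∑ i ∈ S, z i • vee α (a i) := by
      intro S z
      rw [vee_eq hs, map_sum]
      exact Finset.sum_congr rfl fun i _ => by rw [map_smul, ← vee_eq hs]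
    have hWW : W (vee α W) ≤ 0 := by
      have h1 : W (vee α W) = ∑ i ∈ Bp, ∑ j ∈ Bm, y i * (- y j) * (a i (vee α (a j))) := by
        conv_lhs => rw [hsplit, hveeS]
        rw [map_sum]
        rw [Finset.sum_comm]
        apply Finset.sum_congr rfl
        intro j _
        rw [map_smul, ← hsplit, hW]
        simp only [LinearMap.sum_apply, LinearMap.smul_apply, smul_eq_mul]
        rw [Finset.mul_sum]
        exact Finset.sum_congr rfl fun i _ => by ring
      rw [h1]
      apply Finset.sum_nonpos
      intro i hi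
      apply Finset.sum_nonpos
      intro j hj
      rw [hBp, Finset.mem_filter] at hi
      rw [hBm, Finset.mem_filter] at hj
      have hij : i ≠ j := by
        rintro rfl
        exact hj.2 hi.2
      have h2 : a i (vee α (a j)) ≤ 0 := by
        simp only [ha]
        rw [vee_smul hs, LinearMap.smul_apply, map_smul, smul_eq_mul, smul_eq_mul, ← mul_assoc]
        exact hpair i hi.1 j hj.1 hij
      have h3 : 0 ≤ y i * (- y j) := mul_nonneg hi.2.le (by
        have := hj.2; push Not at this; linarith)
      exact mul_nonpos_of_nonneg_of_nonpos h3 h2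
    have hW0 : W = 0 := by
      by_contra hne
      have h1 := form_self_pos hs (vee_ne_zero hs hne)
      rw [vee_spec hs] at h1
      linarith
    have hnop : Bp = ∅ := by
      by_contra hne
      obtain ⟨i, hi⟩ := Finset.nonempty_iff_ne_empty.mpr hne
      have h1 : W v = 0 := by rw [hW0]; rfl
      rw [hW] at h1
      simp only [LinearMap.sum_apply, LinearMap.smul_apply, smul_eq_mul] at h1
      have h2 : 0 < ∑ i ∈ Bp, y i * a i v := by
        apply Finset.sum_pos _ ⟨i, hi⟩
        intro k hk
        rw [hBp, Finset.mem_filter] at hk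
        exact mul_pos hk.2 (hav k)
      linarith
    have hnom : ∀ i ∈ B, y i = 0 := by
      have h1 : ∑ i ∈ B, (- y i) * a i v = 0 := by
        have h2 : (∑ i ∈ B, y i • a i) v = 0 := by rw [hy1]; rfl
        simp only [LinearMap.sum_apply, LinearMap.smul_apply, smul_eq_mul] at h2
        simp only [neg_mul, Finset.sum_neg_distrib, h2, neg_zero]
      have h3 : ∀ i ∈ B, y i ≤ 0 := by
        intro i hi
        by_contra hcon
        push Not at hcon
        have : i ∈ Bp := by rw [hBp, Finset.mem_filter]; exact ⟨hi, hcon⟩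
        rw [hnop] at this
        simp at this
      have h4 := (Finset.sum_eq_zero_iff_of_nonneg (fun i hi =>
        mul_nonneg (by have := h3 i hi; linarith) (hav i).le)).mp h1
      intro i hi
      have h5 := h4 i hi
      rcases mul_eq_zero.mp h5 with h | h
      · linarith
      · exact absurd h (hav i).ne'
    intro i hi
    have h6 := hnom i hi
    simp only [hy] at h6
    exact (mul_eq_zero.mp h6).resolve_right (inv_ne_zero (hv i))
  · -- span
    rw [eq_top_iff, ← hs, span_le]
    rintro _ ⟨i, rfl⟩
    obtain ⟨x, -, hx⟩ := hB i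
    have h1 : α i = (α i v)⁻¹ • a i := by
      simp only [ha]
      rw [smul_smul, inv_mul_cancel₀ (hv i), one_smul]
    rw [h1, hx]
    apply Submodule.smul_mem
    apply Submodule.sum_mem
    intro j hj
    apply Submodule.smul_mem
    rw [ha j]
    apply Submodule.smul_mem
    exact subset_span ⟨j, hj, rfl⟩
  · intro w hw i
    obtain ⟨x, hx0, hx⟩ := hB i
    have h1 : α i v * α i w = a i w := by
      simp only [ha, LinearMap.smul_apply, smul_eq_mul]
    rw [h1, hx]
    simp only [LinearMap.sum_apply, LinearMap.smul_apply, smul_eq_mul]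
    have hpos : ∀ j ∈ B, 0 < a j w := by
      intro j hj
      simp only [ha, LinearMap.smul_apply, smul_eq_mul]
      exact hw j hj
    by_contra hcon
    push Not at hcon
    have h2 : ∑ j ∈ B, x j * a j w = 0 := le_antisymm hcon
      (Finset.sum_nonneg fun j hj => mul_nonneg (hx0 j) (hpos j hj).le)
    have h3 := (Finset.sum_eq_zero_iff_of_nonneg (fun j hj =>
      mul_nonneg (hx0 j) (hpos j hj).le)).mp h2
    have h4 : a i = 0 := by
      rw [hx]
      apply Finset.sum_eq_zero
      intro j hj
      have h5 := h3 j hj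
      rw [(mul_eq_zero.mp h5).resolve_right (hpos j hj).ne', zero_smul]
    have h6 := hav i
    rw [h4] at h6
    simp at h6

end Pool.Agent.VeeR
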