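import Mathlib

/-!
The determinant of `∑ w_i x_i x_iᵀ`.
-/

namespace Pool.Agent.VeeR

open Module Submodule Matrix

variable {ι : Type*} [Fintype ι] {n : ℕ}

/-- `∑ w_i x_i x_iᵀ` -/
def MM (x : ι → Fin n → ℝ) (w : ι → ℝ) : Matrix (Fin n) (Fin n) ℝ :=
  ∑ i, w i • vecMulVec (x i) (x i)

/-- the partial sum over a finset -/
def detS (x : ι → Fin n → ℝ) (w : ι → ℝ) (S : Finset ι) : Matrix (Fin n) (Fin n) ℝ :=
  ∑ i ∈ S, w i • vecMulVec (x i) (x i)

omit [Fintype ι] in
theorem detS_quad (x : ι → Fin n → ℝ) (w : ι → ℝ) (S : Finset ι) (v : Fin n → ℝ) :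
    v ⬝ᵥ (detS x w S *ᵥ v) = ∑ i ∈ S, w i * (x i ⬝ᵥ v) ^ 2 := by
  unfold detS
  rw [Matrix.sum_mulVec, dotProduct_sum]
  apply Finset.sum_congr rfl
  intro i _
  rw [Matrix.smul_mulVec, Matrix.vecMulVec_mulVec, dotProduct_smul, dotProduct_smul]
  simp only [smul_eq_mul, MulOpposite.smul_eq_mul_unop, MulOpposite.unop_op]
  rw [dotProduct_comm v (x i)]
  ring

omit [Fintype ι] in
theorem detS_herm (x : ι → Fin n → ℝ) (w : ι → ℝ) (S : Finset ι) : (detS x w S).IsHermitian := by
  unfold detS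
  ext i j
  simp only [conjTranspose_apply, Matrix.sum_apply, Matrix.smul_apply, vecMulVec_apply,
    smul_eq_mul, star_trivial]
  exact Finset.sum_congr rfl fun k _ => by ring

omit [Fintype ι] in
theorem detS_posDef (x : ι → Fin n → ℝ) (S : Finset ι) (hs : span ℝ (x '' (S : Set ι)) = ⊤)
    (w : ι → ℝ) (hw : ∀ i, 0 < w i) : (detS x w S).PosDef := by
  apply PosDef.of_dotProduct_mulVec_pos (detS_herm x w S)
  intro v hv
  rw [star_trivial, detS_quad]
  have h0 : 0 ≤ ∑ i ∈ S, w i * (x i ⬝ᵥ v) ^ 2 :=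
    Finset.sum_nonneg fun i _ => mul_nonneg (hw i).le (sq_nonneg _)
  refine lt_of_le_of_ne h0 fun h => hv ?_
  have h1 : ∀ i ∈ S, x i ⬝ᵥ v = 0 := by
    intro i hi
    have h2 := (Finset.sum_eq_zero_iff_of_nonneg
      (fun i _ => mul_nonneg (hw i).le (sq_nonneg _))).mp h.symm i hi
    rcases mul_eq_zero.mp h2 with h3 | h3
    · exact absurd h3 (hw i).ne'
    · exact pow_eq_zero_iff two_ne_zero |>.mp h3
  have h2 : ∀ y : Fin n → ℝ, y ⬝ᵥ v = 0 := by
    intro y
    have hy : y ∈ span ℝ (x '' (S : Set ι)) := by rw [hs]; trivial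
    induction hy using Submodule.span_induction with
    | mem z hz =>
      obtain ⟨i, hi, rfl⟩ := hz
      exact h1 i hi
    | zero => exact zero_dotProduct v
    | add a b _ _ ha hb => rw [add_dotProduct, ha, hb, add_zero]
    | smul a b _ hb => rw [smul_dotProduct, hb, smul_zero]
  exact dotProduct_self_eq_zero.mp (h2 v)

theorem MM_eq_detS (x : ι → Fin n → ℝ) (w : ι → ℝ) : MM x w = detS x w Finset.univ := rfl

theorem MM_posDef (x : ι → Fin n → ℝ) (hs : span ℝ (Set.range x) = ⊤) (w : ι → ℝ)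
    (hw : ∀ i, 0 < w i) : (MM x w).PosDef := by
  rw [MM_eq_detS]
  apply detS_posDef x _ _ w hw
  rw [Finset.coe_univ, Set.image_univ, hs]

theorem MM_det_pos (x : ι → Fin n → ℝ) (hs : span ℝ (Set.range x) = ⊤) (w : ι → ℝ)
    (hw : ∀ i, 0 < w i) : 0 < (MM x w).det :=
  (MM_posDef x hs w hw).det_pos

/-- the matrix determinant lemma -/
theorem det_rank_one (M : Matrix (Fin n) (Fin n) ℝ) (hM : IsUnit M.det) (a : ℝ)
    (u : Fin n → ℝ) :
    (M + a • vecMulVec u u).det = M.det * (1 + a * (u ⬝ᵥ (M⁻¹ *ᵥ u))) := by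
  have e1 : a • vecMulVec u u = replicateCol Unit (a • u) * replicateRow Unit u := by
    rw [← vecMulVec_eq, smul_vecMulVec]
  rw [e1, det_add_replicateCol_mul_replicateRow hM]
  congr 1
  rw [det_unique, Matrix.add_apply, Matrix.one_apply_eq, Matrix.mul_assoc]
  congr 1
  rw [← Matrix.replicateCol_mulVec, Matrix.replicateRow_mul_replicateCol_apply,
    Matrix.mulVec_smul, dotProduct_smul, smul_eq_mul]

/-- changing one weight -/
theorem MM_update [DecidableEq ι] (x : ι → Fin n → ℝ) (hs : span ℝ (Set.range x) = ⊤)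
    (w : ι → ℝ) (hw : ∀ i, 0 < w i) (i : ι) (a : ℝ) :
    (MM x (Function.update w i (w i * a))).det
      = (MM x w).det * (1 + (a - 1) * (w i * (x i ⬝ᵥ ((MM x w)⁻¹ *ᵥ x i)))) := by
  have e1 : MM x (Function.update w i (w i * a))
      = MM x w + ((a - 1) * w i) • vecMulVec (x i) (x i) := by
    unfold MM
    have e2 : ∀ j, Function.update w i (w i * a) j • vecMulVec (x j) (x j)
        = w j • vecMulVec (x j) (x j)
          + (if j = i then ((a - 1) * w i) • vecMulVec (x i) (x i) else 0) := by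
      intro j
      by_cases hj : j = i
      · subst hj
        rw [Function.update_self, if_pos rfl, ← add_smul]
        congr 1
        ring
      · rw [Function.update_of_ne hj, if_neg hj, add_zero]
    rw [Finset.sum_congr rfl fun j _ => e2 j, Finset.sum_add_distrib]
    simp
  rw [e1, det_rank_one _ (MM_det_pos x hs w hw).ne'.isUnit]
  ring

omit [Fintype ι] in
theorem detS_mono (x : ι → Fin n → ℝ) (S T : Finset ι) (hST : S ⊆ T)
    (hs : span ℝ (x '' (S : Set ι)) = ⊤) (w : ι → ℝ) (hw : ∀ i, 0 < w i) :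
    (detS x w S).det ≤ (detS x w T).det := by
  classical
  have key : ∀ R : Finset ι, Disjoint S R → (detS x w S).det ≤ (detS x w (S ∪ R)).det := by
    intro R
    induction R using Finset.induction_on with
    | empty => intro _; rw [Finset.union_empty]
    | insert i R hi ih =>
      intro hd
      rw [Finset.disjoint_insert_right] at hd
      refine (ih hd.2).trans ?_
      have hiS : i ∉ S ∪ R := by simp [hd.1, hi]
      have e1 : detS x w (S ∪ insert i R) = detS x w (S ∪ R) + w i • vecMulVec (x i) (x i) := by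
        unfold detS
        rw [Finset.union_insert, Finset.sum_insert hiS, add_comm]
      have hP : (detS x w (S ∪ R)).PosDef := by
        apply detS_posDef x _ _ w hw
        rw [eq_top_iff, ← hs]
        apply span_mono
        apply Set.image_mono
        simp
      rw [e1, det_rank_one _ hP.det_pos.ne'.isUnit]
      have h1 : 0 ≤ x i ⬝ᵥ ((detS x w (S ∪ R))⁻¹ *ᵥ x i) := by
        have := hP.inv.posSemidef.dotProduct_mulVec_nonneg (x i)
        rwa [star_trivial] at this
      have h2 : 0 ≤ w i * (x i ⬝ᵥ ((detS x w (S ∪ R))⁻¹ *ᵥ x i)) := mul_nonneg (hw i).le h1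
      nlinarith [hP.det_pos]
  have e2 : T = S ∪ (T \ S) := (Finset.union_sdiff_of_subset hST).symm
  rw [e2]
  exact key _ Finset.disjoint_sdiff

omit [Fintype ι] in
/-- the determinant of a basis -/
theorem detS_basis (x : ι → Fin n → ℝ) (B : Finset ι) (hB : LinearIndepOn ℝ x (B : Set ι))
    (hs : span ℝ (x '' (B : Set ι)) = ⊤) :
    ∃ m > 0, ∀ w : ι → ℝ, (detS x w B).det = m * ∏ i ∈ B, w i := by
  classical
  have hcard : B.card = n := by
    have h2 : LinearIndependent ℝ (fun k : (B : Set ι) => x k) := hB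
    have h3 := finrank_span_eq_card h2
    have e : Set.range (fun k : (B : Set ι) => x k) = x '' (B : Set ι) := by
      rw [Set.image_eq_range]
    rw [e, hs, finrank_top] at h3
    simp at h3
    exact h3.symm
  let e : Fin n ≃ B := (finCongr hcard.symm).trans B.equivFin.symm
  set X : Matrix (Fin n) (Fin n) ℝ := Matrix.of fun k => x (e k) with hX
  have hXdet : X.det ≠ 0 := by
    have h1 : LinearIndependent ℝ X.row := by
      have h2 : LinearIndependent ℝ (fun k : (B : Set ι) => x k) := hB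
      exact h2.comp e e.injective
    rw [linearIndependent_rows_iff_isUnit, Matrix.isUnit_iff_isUnit_det] at h1
    exact h1.ne_zero
  refine ⟨X.det ^ 2, by positivity, fun w => ?_⟩
  have e1 : detS x w B = Xᵀ * (Matrix.diagonal fun k => w (e k)) * X := by
    ext a b
    rw [Matrix.mul_apply]
    simp only [Matrix.mul_diagonal, Matrix.transpose_apply]
    unfold detS
    rw [Matrix.sum_apply, ← Finset.sum_coe_sort B, ← e.sum_comp]
    apply Finset.sum_congr rfl
    intro k _
    simp only [Matrix.smul_apply, vecMulVec_apply, smul_eq_mul, hX, Matrix.of_apply]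
    ring
  rw [e1, Matrix.det_mul, Matrix.det_mul, Matrix.det_transpose, Matrix.det_diagonal,
    ← Finset.prod_coe_sort B, ← e.prod_comp]
  ring

/-- the lower bound by one basis -/
theorem MM_lower (x : ι → Fin n → ℝ) : ∃ m > 0, ∀ w : ι → ℝ, (∀ i, 0 < w i) →
    ∀ B : Finset ι, LinearIndepOn ℝ x (B : Set ι) → span ℝ (x '' (B : Set ι)) = ⊤ →
      m * ∏ i ∈ B, w i ≤ (MM x w).det := by
  classical
  have h1 : ∀ B : Finset ι, ∃ m > 0, LinearIndepOn ℝ x (B : Set ι) →
      span ℝ (x '' (B : Set ι)) = ⊤ → ∀ w : ι → ℝ, (∀ i, 0 < w i) →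
      m * ∏ i ∈ B, w i ≤ (MM x w).det := by
    intro B
    by_cases hB : LinearIndepOn ℝ x (B : Set ι) ∧ span ℝ (x '' (B : Set ι)) = ⊤
    · obtain ⟨m, hm, h⟩ := detS_basis x B hB.1 hB.2
      refine ⟨m, hm, fun _ hs w hw => ?_⟩
      rw [← h w, MM_eq_detS]
      exact detS_mono x B _ (Finset.subset_univ B) hs w hw
    · refine ⟨1, one_pos, fun h2 h3 => absurd ⟨h2, h3⟩ hB⟩
  choose μ hμ hμ2 using h1
  obtain ⟨B₀, _, hmin⟩ := Finset.exists_min_image (Finset.univ : Finset (Finset ι)) μ
    ⟨∅, Finset.mem_univ _⟩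
  refine ⟨μ B₀, hμ B₀, fun w hw B hB hs => ?_⟩
  refine le_trans ?_ (hμ2 B hB hs w hw)
  exact mul_le_mul_of_nonneg_right (hmin B (Finset.mem_univ B))
    (Finset.prod_nonneg fun i _ => (hw i).le)

theorem MM_continuous (x : ι → Fin n → ℝ) : Continuous (fun w : ι → ℝ => (MM x w).det) := by
  apply Continuous.matrix_det
  unfold MM
  exact continuous_finsetSum _ fun i _ => (continuous_apply i).smul continuous_const

/-- scaling -/
theorem MM_smul (x : ι → Fin n → ℝ) (w : ι → ℝ) (r : ℝ) :
    (MM x (fun i => r * w i)).det = r ^ n * (MM x w).det := by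
  have e1 : MM x (fun i => r * w i) = r • MM x w := by
    unfold MM
    rw [Finset.smul_sum]
    exact Finset.sum_congr rfl fun i _ => by rw [smul_smul]
  rw [e1, Matrix.det_smul, Fintype.card_fin]

end Pool.Agent.VeeR
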