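import Mathlib

/-!
The layer cake inequality.
-/

namespace Pool.Agent.VeeR

open Module Submodule

variable {ι : Type*} [Fintype ι]

/-- Layer cake: if `∑ D = 0` and every proper upper level set of `s` has `D`-mass at least `δ`,
then `∑ s D ≥ δ (s i - s j)`. -/
theorem layer_cake (s D : ι → ℝ) (hD : ∑ i, D i = 0) (δ : ℝ) (hδ : 0 ≤ δ)
    (h : ∀ lam : ℝ, (∃ i, lam ≤ s i) → (∃ i, s i < lam) →
      δ ≤ ∑ i ∈ Finset.univ.filter (fun i => lam ≤ s i), D i) (i j : ι) :
    δ * (s i - s j) ≤ ∑ k, s k * D k := by
  classical
  suffices H : ∀ (n : ℕ) (s : ι → ℝ), (Finset.univ.image s).card ≤ n →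
      (∀ lam : ℝ, (∃ i, lam ≤ s i) → (∃ i, s i < lam) →
        δ ≤ ∑ i ∈ Finset.univ.filter (fun i => lam ≤ s i), D i) → ∀ i j,
      δ * (s i - s j) ≤ ∑ k, s k * D k from H _ s le_rfl h i j
  clear h i j s
  intro n
  induction n with
  | zero =>
    intro s hs _ i _
    exfalso
    have h1 := Finset.card_eq_zero.mp (Nat.le_zero.mp hs)
    have h2 : s i ∈ Finset.univ.image s := Finset.mem_image_of_mem s (Finset.mem_univ i)
    rw [h1] at h2
    simp at h2
  | succ n ih =>
    intro s hs h i j
    have hne : (Finset.univ.image s).Nonempty := ⟨s i, Finset.mem_image_of_mem s (Finset.mem_univ i)⟩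
    set a := (Finset.univ.image s).max' hne with ha
    have hle : ∀ k, s k ≤ a := fun k =>
      Finset.le_max' _ _ (Finset.mem_image_of_mem s (Finset.mem_univ k))
    have hamem : a ∈ Finset.univ.image s := Finset.max'_mem _ _
    rcases ((Finset.univ.image s).erase a).eq_empty_or_nonempty with h0 | h0
    · have hall : ∀ k, s k = a := by
        intro k
        by_contra hk
        have : s k ∈ (Finset.univ.image s).erase a :=
          Finset.mem_erase.mpr ⟨hk, Finset.mem_image_of_mem s (Finset.mem_univ k)⟩
        rw [h0] at this
        simp at this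
      simp only [hall, ← Finset.mul_sum, hD]
      simp
    · set b := ((Finset.univ.image s).erase a).max' h0 with hb
      have hbmem : b ∈ (Finset.univ.image s).erase a := Finset.max'_mem _ _
      have hba : b < a := by
        have h1 := Finset.mem_erase.mp hbmem
        exact lt_of_le_of_ne (Finset.le_max' _ _ h1.2) h1.1
      have hdich : ∀ k, s k = a ∨ s k ≤ b := by
        intro k
        by_cases hk : s k = a
        · exact Or.inl hk
        · exact Or.inr (Finset.le_max' _ _ (Finset.mem_erase.mpr
            ⟨hk, Finset.mem_image_of_mem s (Finset.mem_univ k)⟩))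
      set s' : ι → ℝ := fun k => min (s k) b with hs'
      have hcard : (Finset.univ.image s').card ≤ n := by
        have h1 : Finset.univ.image s' ⊆ (Finset.univ.image s).erase a := by
          intro y hy
          obtain ⟨k, _, rfl⟩ := Finset.mem_image.mp hy
          rcases hdich k with hk | hk
          · have : s' k = b := by simp only [hs', hk]; exact min_eq_right hba.le
            rw [this]; exact hbmem
          · have : s' k = s k := by simp only [hs']; exact min_eq_left hk
            rw [this]
            exact Finset.mem_erase.mpr ⟨by linarith [hk, hba] |> fun h : s k < a => h.ne,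
              Finset.mem_image_of_mem s (Finset.mem_univ k)⟩
        have h2 := Finset.card_le_card h1
        rw [Finset.card_erase_of_mem hamem] at h2
        omega
      have hrec := ih s' hcard (by
        intro lam h1 h2
        obtain ⟨k, hk⟩ := h1
        obtain ⟨l, hl⟩ := h2
        have hlb : lam ≤ b := hk.trans (min_le_right _ _)
        have e : (Finset.univ.filter fun i => lam ≤ s' i)
            = Finset.univ.filter fun i => lam ≤ s i := by
          ext m
          simp only [hs', Finset.mem_filter, Finset.mem_univ, true_and, le_min_iff]
          exact ⟨fun h => h.1, fun h => ⟨h, hlb⟩⟩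
        rw [e]
        apply h lam ⟨k, hk.trans (min_le_left _ _)⟩
        refine ⟨l, ?_⟩
        by_contra hc
        have : lam ≤ s' l := le_min (not_lt.mp hc) hlb
        linarith) i j
      have htop : δ ≤ ∑ i ∈ Finset.univ.filter (fun i => a ≤ s i), D i := by
        apply h a
        · obtain ⟨k, _, hk⟩ := Finset.mem_image.mp hamem
          exact ⟨k, hk.ge⟩
        · obtain ⟨k, _, hk⟩ := Finset.mem_image.mp (Finset.mem_erase.mp hbmem).2
          exact ⟨k, by rw [hk]; exact hba⟩
      have hdec : ∀ k, s k = s' k + (if a ≤ s k then a - b else 0) := by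
        intro k
        rcases hdich k with hk | hk
        · rw [if_pos hk.ge]
          have : s' k = b := by simp only [hs', hk]; exact min_eq_right hba.le
          rw [this, hk]; ring
        · have : s' k = s k := by simp only [hs']; exact min_eq_left hk
          rw [if_neg (by linarith), this, add_zero]
      have hsum : ∑ k, s k * D k = ∑ k, s' k * D k
          + (a - b) * ∑ i ∈ Finset.univ.filter (fun i => a ≤ s i), D i := by
        rw [Finset.sum_filter, Finset.mul_sum, ← Finset.sum_add_distrib]
        apply Finset.sum_congr rfl
        intro k _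
        conv_lhs => rw [hdec k]
        split_ifs <;> ring
      have h1 : s i ≤ s' i + (a - b) := by
        rw [hdec i]
        split_ifs
        · linarith
        · linarith
      have h2 : s' j ≤ s j := min_le_left _ _
      rw [hsum]
      have h3 : (a - b) * δ ≤ (a - b) * ∑ i ∈ Finset.univ.filter (fun i => a ≤ s i), D i :=
        mul_le_mul_of_nonneg_left htop (by linarith)
      have h4 : δ * (s i - s j) ≤ δ * (s' i + (a - b) - s' j) :=
        mul_le_mul_of_nonneg_left (by linarith) hδ
      linarith

end Pool.Agent.VeeR
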