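import Mathlib

/-!
Bases of maximal weight.
-/

namespace Pool.Agent.VeeR

open Module Submodule

variable {ι : Type*} [Fintype ι]

omit [Fintype ι] in
/-- the cardinality of an independent finset is the rank of its span -/
theorem maxBasis_card {W : Type*} [AddCommGroup W] [Module ℝ W] (γ : ι → W) (B : Finset ι)
    (hB : LinearIndepOn ℝ γ (B : Set ι)) :
    finrank ℝ (span ℝ (γ '' (B : Set ι))) = B.card := by
  have h2 : LinearIndependent ℝ (fun k : (B : Set ι) => γ k) := hB
  have h3 := finrank_span_eq_card h2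
  rw [Set.image_eq_range, h3]
  simp

/-- A basis of maximal weight meets every upper level set in a basis of its span. -/
theorem exists_max_basis {W : Type*} [AddCommGroup W] [Module ℝ W] [FiniteDimensional ℝ W]
    (γ : ι → W) (hs : span ℝ (Set.range γ) = ⊤) (s : ι → ℝ) :
    ∃ B : Finset ι, LinearIndepOn ℝ γ (B : Set ι) ∧ span ℝ (γ '' (B : Set ι)) = ⊤ ∧
      ∀ lam : ℝ, (B.filter (fun i => lam ≤ s i)).card
        = finrank ℝ (span ℝ (γ '' {i | lam ≤ s i})) := by
  classical
  set 𝓑 : Finset (Finset ι) := Finset.univ.filter fun B =>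
    LinearIndepOn ℝ γ (B : Set ι) ∧ span ℝ (γ '' (B : Set ι)) = ⊤ with h𝓑
  have hext : ∀ A T : Set ι, LinearIndepOn ℝ γ A → A ⊆ T → span ℝ (γ '' T) = ⊤ →
      ∃ B ∈ 𝓑, A ⊆ (B : Set ι) ∧ (B : Set ι) ⊆ T := by
    intro A T hA hAT hT
    obtain ⟨b, hbT, hAb, hspan, hb⟩ := exists_linearIndepOn_extension hA hAT
    refine ⟨b.toFinset, ?_, by simpa using hAb, by simpa using hbT⟩
    rw [h𝓑, Finset.mem_filter]
    refine ⟨Finset.mem_univ _, by simpa using hb, ?_⟩
    rw [Set.coe_toFinset, eq_top_iff, ← hT, span_le]
    exact hspan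
  have hne : 𝓑.Nonempty := by
    obtain ⟨B, hB, _⟩ := hext ∅ Set.univ (linearIndepOn_empty ℝ γ) (Set.empty_subset _)
      (by rw [Set.image_univ, hs])
    exact ⟨B, hB⟩
  obtain ⟨B, hB, hmax⟩ := Finset.exists_max_image 𝓑 (fun B => ∑ i ∈ B, s i) hne
  have hBB := hB
  rw [h𝓑, Finset.mem_filter] at hB
  obtain ⟨-, hBi, hBs⟩ := hB
  refine ⟨B, hBi, hBs, fun lam => ?_⟩
  have hle : (B.filter (fun i => lam ≤ s i) : Finset ι) ⊆ B := Finset.filter_subset _ _
  have hind : LinearIndepOn ℝ γ ((B.filter (fun i => lam ≤ s i) : Finset ι) : Set ι) :=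
    hBi.mono (by exact_mod_cast hle)
  have hspan : span ℝ (γ '' ((B.filter (fun i => lam ≤ s i) : Finset ι) : Set ι))
      = span ℝ (γ '' {i | lam ≤ s i}) := by
    apply le_antisymm
    · apply span_mono
      apply Set.image_mono
      intro i hi
      simp only [Finset.coe_filter, Set.mem_ofPred_eq] at hi
      exact hi.2
    · rw [span_le]
      rintro _ ⟨i, hi, rfl⟩
      by_contra hni
      have hi' : lam ≤ s i := hi
      have hins : LinearIndepOn ℝ γ
          (insert i ((B.filter (fun i => lam ≤ s i) : Finset ι) : Set ι)) :=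
        hind.insert hni
      have hiB : i ∉ B := by
        intro h
        apply hni
        apply subset_span
        exact ⟨i, by simp [h, hi'], rfl⟩
      obtain ⟨B', hB', h1, h2⟩ := hext _ (insert i (B : Set ι)) hins
        (Set.insert_subset_insert (by exact_mod_cast hle)) (by
          rw [eq_top_iff, ← hBs]
          exact span_mono (Set.image_mono (Set.subset_insert _ _)))
      have hB'2 := hB'
      rw [h𝓑, Finset.mem_filter] at hB'2
      have hiB' : i ∈ B' := by
        have := h1 (Set.mem_insert _ _)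
        exact_mod_cast this
      have hcard : B'.card = B.card := by
        rw [← maxBasis_card γ B hBi, ← maxBasis_card γ B' hB'2.2.1, hBs, hB'2.2.2]
      have hsub : B'.erase i ⊆ B := by
        intro k hk
        rw [Finset.mem_erase] at hk
        have h3 : k ∈ insert i (B : Set ι) := h2 (by exact_mod_cast hk.2)
        rcases h3 with h3 | h3
        · exact absurd h3 hk.1
        · exact_mod_cast h3
      have hcard2 : (B \ B'.erase i).card = 1 := by
        rw [Finset.card_sdiff_of_subset hsub, Finset.card_erase_of_mem hiB']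
        have : 0 < B'.card := Finset.card_pos.mpr ⟨i, hiB'⟩
        omega
      obtain ⟨j, hj⟩ := Finset.card_eq_one.mp hcard2
      have hjm : j ∈ B \ B'.erase i := by rw [hj]; exact Finset.mem_singleton_self j
      rw [Finset.mem_sdiff] at hjm
      have hsj : s j < lam := by
        by_contra hc
        have h4 : j ∈ B.filter (fun i => lam ≤ s i) :=
          Finset.mem_filter.mpr ⟨hjm.1, not_lt.mp hc⟩
        have h5 : j ∈ B' := by
          have := h1 (Set.mem_insert_of_mem i (by exact_mod_cast h4))
          exact_mod_cast this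
        have h6 : j ≠ i := by
          rintro rfl
          exact hiB hjm.1
        exact hjm.2 (Finset.mem_erase.mpr ⟨h6, h5⟩)
      have hsum1 : ∑ k ∈ B, s k = ∑ k ∈ B'.erase i, s k + s j := by
        rw [← Finset.sum_sdiff hsub, hj, Finset.sum_singleton, add_comm]
      have hsum2 : ∑ k ∈ B', s k = s i + ∑ k ∈ B'.erase i, s k :=
        (Finset.add_sum_erase _ _ hiB').symm
      have h7 := hmax B' hB'
      linarith
  rw [← hspan, maxBasis_card γ _ hind]

end Pool.Agent.VeeR
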