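import Mathlib
import Pool.Agent.VeeR.Layer
import Pool.Agent.VeeR.MaxBasis

/-!
Greedy bases and the layer cake inequality.
-/

namespace Pool.Agent.VeeR

open Module Submodule

variable {ι : Type*} [Fintype ι]

/-- Coercivity of the exponent. -/
theorem coercive {W : Type*} [AddCommGroup W] [Module ℝ W] [FiniteDimensional ℝ W]
    (γ : ι → W) (hs : span ℝ (Set.range γ) = ⊤) (c : ι → ℝ) (hc : ∑ i, c i = finrank ℝ W)
    (δ : ℝ) (hδ : 0 ≤ δ)
    (hrk : ∀ F : Finset ι, F.Nonempty → F ≠ Finset.univ →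
      ∑ i ∈ F, c i + δ ≤ finrank ℝ (span ℝ (γ '' (F : Set ι)))) (s : ι → ℝ) :
    ∃ B : Finset ι, LinearIndepOn ℝ γ (B : Set ι) ∧ span ℝ (γ '' (B : Set ι)) = ⊤ ∧
      ∀ i j, ∑ k, c k * s k + δ * (s i - s j) ≤ ∑ k ∈ B, s k := by
  classical
  obtain ⟨B, hB, hBs, hB3⟩ := exists_max_basis γ hs s
  refine ⟨B, hB, hBs, fun i j => ?_⟩
  set D : ι → ℝ := fun k => (if k ∈ B then (1 : ℝ) else 0) - c k with hDdef
  have hcardB : (B.card : ℝ) = finrank ℝ W := by
    have h1 : finrank ℝ (span ℝ (γ '' (B : Set ι))) = B.card := by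
      have h2 : LinearIndependent ℝ (fun k : (B : Set ι) => γ k) := hB
      have h3 := finrank_span_eq_card h2
      rw [Set.image_eq_range]
      rw [h3]; simp
    rw [hBs, finrank_top] at h1
    rw [h1]
  have hsumB : ∀ F : Finset ι, ∑ k ∈ F, D k = ((B.filter (fun k => k ∈ F)).card : ℝ) - ∑ k ∈ F, c k := by
    intro F
    simp only [hDdef, Finset.sum_sub_distrib]
    congr 1
    rw [Finset.sum_ite_mem, Finset.sum_const, nsmul_eq_mul, mul_one]
    congr 2
    ext k
    simp only [Finset.mem_inter, Finset.mem_filter]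
    tauto
  have hD0 : ∑ k, D k = 0 := by
    rw [hsumB, hc]
    simp only [Finset.mem_univ, Finset.filter_true]
    rw [hcardB]; ring
  have key := layer_cake s D hD0 δ hδ (by
    intro lam h1 h2
    set F := Finset.univ.filter (fun k => lam ≤ s k) with hF
    have e1 : (B.filter (fun k => k ∈ F)) = B.filter (fun k => lam ≤ s k) := by
      ext k; simp [hF]
    rw [hsumB, e1, hB3 lam]
    have e2 : γ '' {i | lam ≤ s i} = γ '' (F : Set ι) := by
      congr 1; ext k; simp [hF]
    rw [e2]
    have := hrk F (by obtain ⟨a, ha⟩ := h1; exact ⟨a, by simp [hF, ha]⟩) (by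
      obtain ⟨a, ha⟩ := h2
      intro h
      have h5 : a ∈ F := by rw [h]; exact Finset.mem_univ a
      have h6 : lam ≤ s a := by simpa [hF] using h5
      linarith)
    linarith) i j
  have e3 : ∑ k, s k * D k = ∑ k ∈ B, s k - ∑ k, c k * s k := by
    simp only [hDdef, mul_sub, Finset.sum_sub_distrib]
    congr 1
    · rw [← Finset.sum_filter_add_sum_filter_not Finset.univ (fun k => k ∈ B)]
      have : ∑ x with x ∉ B, s x * (if x ∈ B then (1 : ℝ) else 0) = 0 := by
        apply Finset.sum_eq_zero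
        intro x hx
        rw [Finset.mem_filter] at hx
        rw [if_neg hx.2, mul_zero]
      rw [this, add_zero]
      apply Finset.sum_congr
      · ext k; simp
      · intro x hx
        rw [if_pos (by simpa using hx), mul_one]
    · exact Finset.sum_congr rfl fun k _ => mul_comm _ _
  rw [e3] at key
  linarith

end Pool.Agent.VeeR
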