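import Mathlib
import Pool.Agent.MP_de770b_mp.ToSys

/-!
The trace of the Gram matrix and the rank inequalities.
-/

namespace Pool.Agent.VeeR

open Module Submodule Pool.Agent.MP_de770b_mp

variable {ι : Type*} [Fintype ι] {V : Type*} [AddCommGroup V] [Module ℝ V]
  [FiniteDimensional ℝ V] {α β : ι → Dual ℝ V}

/-- the evaluation map into the Euclidean space -/
noncomputable def rankPsi (α : ι → Dual ℝ V) : Dual ℝ V →ₗ[ℝ] EuclideanSpace ℝ ι :=
  (WithLp.linearEquiv 2 ℝ (ι → ℝ)).symm.toLinearMap ∘ₗ evalMap α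

omit [FiniteDimensional ℝ V] in
theorem rankPsi_apply (α : ι → Dual ℝ V) (γ : Dual ℝ V) (j : ι) :
    rankPsi α γ j = γ (vee α (α j)) := rfl

theorem rankPsi_injective (hs : span ℝ (Set.range α) = ⊤) :
    Function.Injective (rankPsi α) :=
  (WithLp.linearEquiv 2 ℝ (ι → ℝ)).symm.injective.comp (evalMap_injective hs)

theorem rankPsi_inner (hs : span ℝ (Set.range α) = ⊤) (i : ι) (γ : Dual ℝ V) :
    inner ℝ (rankPsi α γ) (rankPsi α (α i)) = rankPsi α γ i := by
  have hγ : γ ∈ span ℝ (Set.range α) := by rw [hs]; trivial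
  induction hγ using Submodule.span_induction with
  | mem x hx =>
    obtain ⟨j, rfl⟩ := hx
    rw [PiLp.inner_apply]
    simp only [rankPsi_apply]
    change ∑ l, inner ℝ (gram α j l) (gram α i l) = gram α j i
    rw [← gram_idem hs j i]
    apply Finset.sum_congr rfl
    intro l _
    rw [gram_sym hs l i]
    simp [mul_comm]
  | zero => simp
  | add x y _ _ hx hy => rw [map_add, inner_add_left, hx, hy]; rfl
  | smul c x _ hx => rw [map_smul, inner_smul_left, hx]; rfl

/-- the main computation -/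
theorem rank_key (hs : span ℝ (Set.range α) = ⊤) (F : Finset ι) :
    ∃ (r : ℕ) (e : Fin r → EuclideanSpace ℝ ι), r = finrank ℝ (span ℝ (α '' (F : Set ι))) ∧
      (∀ k, ∑ i, e k i ^ 2 = 1) ∧ (∀ i ∈ F, gram α i i = ∑ k, e k i ^ 2) ∧
      (∀ i ∈ F, rankPsi α (α i) ∈ span ℝ (Set.range e)) := by
  classical
  set W : Submodule ℝ (EuclideanSpace ℝ ι) := (span ℝ (α '' (F : Set ι))).map (rankPsi α) with hW
  have hfr : finrank ℝ W = finrank ℝ (span ℝ (α '' (F : Set ι))) :=
    (LinearEquiv.finrank_eq (Submodule.equivMapOfInjective (rankPsi α) (rankPsi_injective hs) _)).symm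
  let b := stdOrthonormalBasis ℝ W
  have hmem : ∀ i ∈ F, rankPsi α (α i) ∈ W := fun i hi =>
    Submodule.mem_map_of_mem (subset_span ⟨i, hi, rfl⟩)
  refine ⟨finrank ℝ W, fun k => (b k : EuclideanSpace ℝ ι), hfr, ?_, ?_, ?_⟩
  · intro k
    have h1 : ‖b k‖ = 1 := b.orthonormal.1 k
    have h2 : ‖(b k : EuclideanSpace ℝ ι)‖ ^ 2 = 1 := by
      change ‖b k‖ ^ 2 = 1
      rw [h1, one_pow]
    rw [EuclideanSpace.norm_sq_eq] at h2
    simpa using h2
  · intro i hi
    have h1 := b.sum_sq_norm_inner_right ⟨rankPsi α (α i), hmem i hi⟩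
    have h2 : ‖rankPsi α (α i)‖ ^ 2 = gram α i i := by
      rw [← real_inner_self_eq_norm_sq, rankPsi_inner hs]
      rfl
    have h3 : ‖(⟨rankPsi α (α i), hmem i hi⟩ : W)‖ ^ 2 = gram α i i := h2
    refine h3.symm.trans (h1.symm.trans ?_)
    apply Finset.sum_congr rfl
    intro k _
    obtain ⟨γ, _, hγ⟩ := (b k).2
    have h4 : inner ℝ (b k : EuclideanSpace ℝ ι) (rankPsi α (α i))
        = (b k : EuclideanSpace ℝ ι) i := by
      rw [← hγ]
      exact rankPsi_inner hs i γ
    change ‖inner ℝ (b k : EuclideanSpace ℝ ι) (rankPsi α (α i))‖ ^ 2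
      = (b k : EuclideanSpace ℝ ι) i ^ 2
    rw [h4, Real.norm_eq_abs, sq_abs]
  · intro i hi
    have h1 := b.sum_repr ⟨rankPsi α (α i), hmem i hi⟩
    have h2 : ∑ k, b.repr ⟨rankPsi α (α i), hmem i hi⟩ k • (b k : EuclideanSpace ℝ ι)
        = rankPsi α (α i) := by
      have h3 := congrArg W.subtype h1
      rw [map_sum] at h3
      exact h3
    rw [← h2]
    exact Submodule.sum_mem _ fun k _ => Submodule.smul_mem _ _ (subset_span ⟨k, rfl⟩)

theorem trace_gram (hs : span ℝ (Set.range α) = ⊤) : ∑ i, gram α i i = finrank ℝ V := by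
  obtain ⟨r, e, hr, he1, he2, -⟩ := rank_key hs Finset.univ
  rw [Finset.sum_congr rfl fun i _ => he2 i (Finset.mem_univ i), Finset.sum_comm,
    Finset.sum_congr rfl fun k _ => he1 k]
  rw [Finset.coe_univ, Set.image_univ, hs, finrank_top, Subspace.dual_finrank_eq] at hr
  simp [hr]

theorem sum_gram_lt (hs : span ℝ (Set.range α) = ⊤) (hirr : IsIrreducible α) (F : Finset ι)
    (hF : F.Nonempty) (hF' : F ≠ Finset.univ) :
    ∑ i ∈ F, gram α i i < finrank ℝ (span ℝ (α '' (F : Set ι))) := by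
  classical
  obtain ⟨r, e, hr, he1, he2, he3⟩ := rank_key hs F
  rw [← hr]
  by_contra hcon
  rw [not_lt] at hcon
  rw [Finset.sum_congr rfl fun i hi => he2 i hi, Finset.sum_comm] at hcon
  have hle : ∀ k ∈ (Finset.univ : Finset (Fin r)), ∑ i ∈ F, e k i ^ 2 ≤ 1 := by
    intro k _
    rw [← he1 k]
    exact Finset.sum_le_sum_of_subset_of_nonneg (Finset.subset_univ F) fun i _ _ => sq_nonneg _
  have hsum : ∑ k : Fin r, ∑ i ∈ F, e k i ^ 2 = ∑ _k : Fin r, (1 : ℝ) :=
    le_antisymm (Finset.sum_le_sum hle) (by simpa using hcon)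
  have hone := (Finset.sum_eq_sum_iff_of_le hle).mp hsum
  have hzero : ∀ k, ∀ i, i ∉ F → e k i = 0 := by
    intro k i hi
    have h1 := hone k (Finset.mem_univ k)
    have h2 := he1 k
    rw [← Finset.sum_add_sum_compl F, h1] at h2
    have h3 : ∑ i ∈ Fᶜ, e k i ^ 2 = 0 := by linarith
    have h4 := (Finset.sum_eq_zero_iff_of_nonneg (fun i _ => sq_nonneg _)).mp h3 i
      (Finset.mem_compl.mpr hi)
    exact pow_eq_zero_iff two_ne_zero |>.mp h4
  have hzero2 : ∀ w ∈ span ℝ (Set.range e), ∀ i, i ∉ F → w i = 0 := by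
    intro w hw i hi
    induction hw using Submodule.span_induction with
    | mem x hx =>
      obtain ⟨k, rfl⟩ := hx
      exact hzero k i hi
    | zero => rfl
    | add x y _ _ hx hy =>
      change x i + y i = 0
      rw [hx, hy, add_zero]
    | smul c x _ hx =>
      change c * x i = 0
      rw [hx, mul_zero]
  obtain ⟨j0, hj0⟩ : ∃ j, j ∉ F := by
    by_contra h
    push Not at h
    exact hF' (Finset.eq_univ_iff_forall.mpr h)
  obtain ⟨i0, hi0⟩ := hF
  obtain ⟨i, hi, j, hj, hij⟩ := irr_gram hs hirr (F : Set ι) ⟨i0, hi0⟩ ⟨j0, hj0⟩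
  exact hij (hzero2 _ (he3 i hi) j hj)

omit [FiniteDimensional ℝ V] [Fintype ι] in
theorem sameMatroid_symm (h : SameMatroid α β) : SameMatroid β α := fun s => (h s).symm

omit [Fintype ι] in
theorem rank_le_of_sameMatroid [Finite ι] (h : SameMatroid α β) (s : Set ι) :
    finrank ℝ (span ℝ (α '' s)) ≤ finrank ℝ (span ℝ (β '' s)) := by
  classical
  obtain ⟨b, hbs, -, hspan, hb⟩ := exists_linearIndepOn_extension (linearIndepOn_empty ℝ α)
    (Set.empty_subset s)
  have hb' : LinearIndepOn ℝ β b := (h b).mp hb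
  have : Fintype b := Fintype.ofFinite b
  have e1 : finrank ℝ (span ℝ (α '' b)) = Fintype.card b := by
    have h2 : LinearIndependent ℝ (fun k : b => α k) := hb
    rw [Set.image_eq_range, finrank_span_eq_card h2]
  have e2 : finrank ℝ (span ℝ (β '' b)) = Fintype.card b := by
    have h2 : LinearIndependent ℝ (fun k : b => β k) := hb'
    rw [Set.image_eq_range, finrank_span_eq_card h2]
  have e3 : span ℝ (α '' s) = span ℝ (α '' b) :=
    le_antisymm (span_le.mpr hspan) (span_mono (Set.image_mono hbs))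
  rw [e3, e1, ← e2]
  exact Submodule.finrank_mono (span_mono (Set.image_mono hbs))

/-- the ranks of subsets only depend on the matroid -/
theorem finrank_eq_of_sameMatroid (h : SameMatroid α β) (s : Set ι) :
    finrank ℝ (span ℝ (α '' s)) = finrank ℝ (span ℝ (β '' s)) :=
  le_antisymm (rank_le_of_sameMatroid h s) (rank_le_of_sameMatroid (sameMatroid_symm h) s)

theorem spans_of_sameMatroid (hs : span ℝ (Set.range α) = ⊤) (h : SameMatroid α β) :
    span ℝ (Set.range β) = ⊤ := by
  have h1 := finrank_eq_of_sameMatroid h Set.univ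
  rw [Set.image_univ, Set.image_univ, hs, finrank_top] at h1
  exact Submodule.eq_top_of_finrank_eq h1.symm

omit [Fintype ι] [FiniteDimensional ℝ V] in
theorem rank_pair_iff {γ : ι → Dual ℝ V} {i j : ι} (hij : i ≠ j) :
    LinearIndepOn ℝ γ {i, j} ↔ LinearIndependent ℝ ![γ i, γ j] := by
  rw [LinearIndepOn.pair_iff γ hij, LinearIndependent.pair_iff]

omit [Fintype ι] [FiniteDimensional ℝ V] in
theorem noncollinear_of_sameMatroid (hn : ∀ i j, i ≠ j → LinearIndependent ℝ ![α i, α j])
    (h : SameMatroid α β) : ∀ i j, i ≠ j → LinearIndependent ℝ ![β i, β j] := by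
  intro i j hij
  rw [← rank_pair_iff hij, ← h, rank_pair_iff hij]
  exact hn i j hij

theorem fl_eq_of_sameMatroid' (hn : ∀ i j, i ≠ j → LinearIndependent ℝ ![α i, α j])
    (h : SameMatroid α β) {i j : ι} (hij : i ≠ j) : fl β i j = fl α i j := by
  classical
  have hn' := noncollinear_of_sameMatroid hn h
  have key : ∀ {γ : ι → Dual ℝ V}, (∀ i j, i ≠ j → LinearIndependent ℝ ![γ i, γ j]) →
      ∀ k, k ∈ fl γ i j ↔ (k = i ∨ k = j ∨ ¬ LinearIndepOn ℝ γ {k, i, j}) := by
    intro γ hγ k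
    by_cases hki : k = i
    · subst hki
      simp [left_mem_fl]
    by_cases hkj : k = j
    · subst hkj
      simp [right_mem_fl]
    have hnot : k ∉ ({i, j} : Set ι) := by simp [hki, hkj]
    have hpair : LinearIndepOn ℝ γ {i, j} := (rank_pair_iff hij).mpr (hγ i j hij)
    rw [mem_fl, linearIndepOn_insert hnot, Set.image_pair]
    simp [hki, hkj, hpair]
  ext k
  rw [key hn', key hn, h]

end Pool.Agent.VeeR
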