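import Mathlib
import Pool.Agent.VeeR.Greedy
import Pool.Agent.VeeR.Det
import Pool.Agent.MP_de770b_mp.ToSys

/-!
Existence of the scaling with prescribed norms (radial isotropic position).
-/

namespace Pool.Agent.VeeR

open Module Submodule Matrix Pool.Agent.MP_de770b_mp

variable {ι : Type*} [Fintype ι]

/-- a continuous function on `ι → ℝ` that dominates the differences of the coordinates and the
square of the sum has a global minimum -/
theorem scale_exists_min [Nonempty ι] (F : (ι → ℝ) → ℝ) (hF : Continuous F) (a δ : ℝ)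
    (hδ : 0 < δ)
    (hb : ∀ s i j, a + δ * (s i - s j) + (∑ k, s k) ^ 2 ≤ F s) :
    ∃ s₀, ∀ s, F s₀ ≤ F s := by
  set A : ℝ := F 0 - a with hA
  have hA0 : 0 ≤ A := by
    obtain ⟨i⟩ := (inferInstance : Nonempty ι)
    have := hb 0 i i
    simp at this
    linarith
  set K : ℝ := A / δ with hK
  have hK0 : 0 ≤ K := div_nonneg hA0 hδ.le
  have hN : (0 : ℝ) < Fintype.card ι := by exact_mod_cast Fintype.card_pos
  set R : ℝ := K + (A + 1) with hR
  have hcpt : IsCompact (Set.univ.pi fun _ : ι => Set.Icc (-R) R) :=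
    isCompact_univ_pi fun _ => isCompact_Icc
  have h0mem : (0 : ι → ℝ) ∈ (Set.univ.pi fun _ : ι => Set.Icc (-R) R) := by
    intro i _
    have : 0 ≤ R := by linarith
    exact ⟨by simpa using this, by simpa using this⟩
  obtain ⟨s₀, hs₀, hmin⟩ := hcpt.exists_isMinOn ⟨0, h0mem⟩ hF.continuousOn
  refine ⟨s₀, fun s => ?_⟩
  by_cases hs : F s ≤ F 0
  · apply hmin
    have hd : ∀ i j, s i - s j ≤ K := by
      intro i j
      have h1 := hb s i j
      have h2 : δ * (s i - s j) ≤ A := by nlinarith [sq_nonneg (∑ k, s k)]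
      rw [hK, le_div_iff₀ hδ]
      linarith
    have hsum : |∑ k, s k| ≤ A + 1 := by
      obtain ⟨i⟩ := (inferInstance : Nonempty ι)
      have h1 := hb s i i
      have h2 : (∑ k, s k) ^ 2 ≤ A := by
        rw [sub_self, mul_zero] at h1
        linarith
      rw [abs_le]
      constructor <;> nlinarith
    have key : ∀ i, (Fintype.card ι : ℝ) * s i = ∑ j, (s i - s j) + ∑ j, s j := by
      intro i
      rw [Finset.sum_sub_distrib]
      simp
    have hN1 : (1 : ℝ) ≤ Fintype.card ι := by exact_mod_cast Fintype.card_pos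
    have hle := abs_le.mp hsum
    intro i _
    have h1 : ∑ j, (s i - s j) ≤ (Fintype.card ι : ℝ) * K := by
      calc ∑ j, (s i - s j) ≤ ∑ _j : ι, K := Finset.sum_le_sum fun j _ => hd i j
        _ = _ := by simp
    have h2 : -((Fintype.card ι : ℝ) * K) ≤ ∑ j, (s i - s j) := by
      calc -((Fintype.card ι : ℝ) * K) = ∑ _j : ι, (-K) := by simp
        _ ≤ _ := Finset.sum_le_sum fun j _ => by have := hd j i; linarith
    have hi := key i
    constructor
    · have : (Fintype.card ι : ℝ) * (-R) ≤ (Fintype.card ι : ℝ) * s i := by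
        rw [hi, hR]
        nlinarith
      exact le_of_mul_le_mul_left this hN
    · have : (Fintype.card ι : ℝ) * s i ≤ (Fintype.card ι : ℝ) * R := by
        rw [hi, hR]
        nlinarith
      exact le_of_mul_le_mul_left this hN
  · exact (hmin h0mem).trans (not_le.mp hs).le

theorem exists_scaling_coord {n : ℕ} (x : ι → Fin n → ℝ) (hs : span ℝ (Set.range x) = ⊤)
    (c : ι → ℝ) (hc : ∑ i, c i = n) (δ : ℝ) (hδ : 0 < δ)
    (hrk : ∀ F : Finset ι, F.Nonempty → F ≠ Finset.univ →
      ∑ i ∈ F, c i + δ ≤ finrank ℝ (span ℝ (x '' (F : Set ι)))) :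
    ∃ w : ι → ℝ, (∀ i, 0 < w i) ∧ ∀ i, w i * (x i ⬝ᵥ ((MM x w)⁻¹ *ᵥ x i)) = c i := by
  classical
  rcases isEmpty_or_nonempty ι with hι | hι
  · exact ⟨fun _ => 1, fun i => (hι.false i).elim, fun i => (hι.false i).elim⟩
  obtain ⟨m, hm, hlow⟩ := MM_lower x
  -- the function without the penalty
  set f : (ι → ℝ) → ℝ := fun s =>
    Real.log (MM x (fun i => Real.exp (s i))).det - ∑ i, c i * s i with hf
  have hpos : ∀ s : ι → ℝ, 0 < (MM x (fun i => Real.exp (s i))).det := fun s =>
    MM_det_pos x hs _ fun i => Real.exp_pos _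
  have hfc : Continuous f := by
    apply Continuous.sub
    · apply Continuous.log
      · exact (MM_continuous x).comp
          (continuous_pi fun i => Real.continuous_exp.comp (continuous_apply i))
      · intro s
        exact (hpos s).ne'
    · exact continuous_finsetSum _ fun i _ => continuous_const.mul (continuous_apply i)
  have hcoer : ∀ s i j, Real.log m + δ * (s i - s j) ≤ f s := by
    intro s i j
    obtain ⟨B, hB, hBs, h3⟩ := coercive x hs c (by rw [hc]; simp) δ hδ.le hrk s
    have h4 := hlow (fun i => Real.exp (s i)) (fun i => Real.exp_pos _) B hB hBs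
    have h5 : Real.log m + ∑ k ∈ B, s k ≤ Real.log (MM x (fun i => Real.exp (s i))).det := by
      have h6 := Real.log_le_log (mul_pos hm (Finset.prod_pos fun i _ => Real.exp_pos (s i))) h4
      rw [Real.log_mul hm.ne' (Finset.prod_pos fun i _ => Real.exp_pos (s i)).ne',
        ← Real.exp_sum, Real.log_exp] at h6
      exact h6
    have h7 := h3 i j
    simp only [hf]
    linarith
  obtain ⟨s₀, hs₀⟩ := scale_exists_min (fun s => f s + (∑ k, s k) ^ 2)
    (hfc.add ((continuous_finsetSum _ fun i _ => continuous_apply i).pow 2)) (Real.log m) δ hδ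
    (fun s i j => by have := hcoer s i j; linarith)
  -- invariance
  have hinv : ∀ (s : ι → ℝ) (r : ℝ), f (fun i => s i + r) = f s := by
    intro s r
    simp only [hf]
    have e1 : (fun i => Real.exp (s i + r)) = fun i => Real.exp r * Real.exp (s i) := by
      funext i
      rw [Real.exp_add, mul_comm]
    rw [e1, MM_smul, Real.log_mul (pow_pos (Real.exp_pos r) n).ne' (hpos s).ne', Real.log_pow,
      Real.log_exp]
    have e2 : ∑ i, c i * (s i + r) = ∑ i, c i * s i + n * r := by
      rw [← hc, Finset.sum_mul, ← Finset.sum_add_distrib]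
      exact Finset.sum_congr rfl fun i _ => by ring
    rw [e2]
    ring
  have hN : (Fintype.card ι : ℝ) ≠ 0 := by
    have : (0 : ℝ) < Fintype.card ι := by exact_mod_cast Fintype.card_pos
    exact this.ne'
  have hmin : ∀ s, f s₀ ≤ f s := by
    intro s
    set r : ℝ := -(∑ k, s k) / Fintype.card ι with hr
    have h1 := hs₀ (fun i => s i + r)
    simp only at h1
    rw [hinv] at h1
    have h2 : ∑ k, (s k + r) = 0 := by
      rw [Finset.sum_add_distrib]
      simp only [Finset.sum_const, Finset.card_univ, nsmul_eq_mul, hr]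
      field_simp
      ring
    rw [h2] at h1
    have := sq_nonneg (∑ k, s₀ k)
    linarith
  -- stationarity
  set w : ι → ℝ := fun i => Real.exp (s₀ i) with hw
  have hwpos : ∀ i, 0 < w i := fun i => Real.exp_pos _
  refine ⟨w, hwpos, fun i => ?_⟩
  set l : ℝ := w i * (x i ⬝ᵥ ((MM x w)⁻¹ *ᵥ x i)) with hl
  have hupd : ∀ h : ℝ, (fun j => Real.exp (Function.update s₀ i (s₀ i + h) j))
      = Function.update w i (w i * Real.exp h) := by
    intro h
    funext j
    by_cases hj : j = i
    · subst hj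
      simp [hw, Real.exp_add]
    · simp [Function.update_of_ne hj, hw]
  have hdetpos : ∀ h : ℝ, 0 < 1 + (Real.exp h - 1) * l := by
    intro h
    have h1 := hpos (Function.update s₀ i (s₀ i + h))
    rw [hupd h, MM_update x hs w hwpos i (Real.exp h)] at h1
    exact (pos_iff_pos_of_mul_pos h1).mp (hpos s₀)
  have hval : ∀ h : ℝ, f (Function.update s₀ i (s₀ i + h))
      = f s₀ + (Real.log (1 + (Real.exp h - 1) * l) - c i * h) := by
    intro h
    simp only [hf]
    rw [hupd h, MM_update x hs w hwpos i (Real.exp h),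
      Real.log_mul (hpos s₀).ne' (hdetpos h).ne']
    have e2 : ∑ j, c j * Function.update s₀ i (s₀ i + h) j = ∑ j, c j * s₀ j + c i * h := by
      have e3 : ∀ j, c j * Function.update s₀ i (s₀ i + h) j
          = c j * s₀ j + (if j = i then c i * h else 0) := by
        intro j
        by_cases hj : j = i
        · subst hj; simp; ring
        · simp [hj]
      rw [Finset.sum_congr rfl fun j _ => e3 j, Finset.sum_add_distrib]
      simp
    rw [e2]
    simp only [hw, hl]
    ring
  set g : ℝ → ℝ := fun h => Real.log (1 + (Real.exp h - 1) * l) - c i * h with hg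
  have hgmin : IsLocalMin g 0 := by
    apply Filter.Eventually.of_forall
    intro h
    have h1 := hmin (Function.update s₀ i (s₀ i + h))
    rw [hval h] at h1
    simp only [hg, Real.exp_zero, sub_self, zero_mul, add_zero, Real.log_one, mul_zero]
    linarith
  have hgd : HasDerivAt g (l - c i) 0 := by
    have h1 : HasDerivAt (fun h : ℝ => 1 + (Real.exp h - 1) * l) (Real.exp 0 * l) 0 :=
      (((Real.hasDerivAt_exp 0).sub_const 1).mul_const l).const_add 1
    have h2 := h1.log (by simp)
    have h3 : HasDerivAt (fun h : ℝ => c i * h) (c i) 0 := by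
      simpa using (hasDerivAt_id (0 : ℝ)).const_mul (c i)
    have h4 := h2.sub h3
    have h5 : Real.exp 0 * l / (1 + (Real.exp 0 - 1) * l) - c i = l - c i := by simp
    rw [h5] at h4
    exact h4
  have := hgmin.hasDerivAt_eq_zero hgd
  linarith

variable {V : Type*} [AddCommGroup V] [Module ℝ V] [FiniteDimensional ℝ V]

theorem exists_scaling (γ : ι → Dual ℝ V) (hs : span ℝ (Set.range γ) = ⊤)
    (c : ι → ℝ) (hc : ∑ i, c i = finrank ℝ V)
    (hrk : ∀ F : Finset ι, F.Nonempty → F ≠ Finset.univ →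
      ∑ i ∈ F, c i < finrank ℝ (span ℝ (γ '' (F : Set ι)))) :
    ∃ t : ι → ℝ, (∀ i, 0 < t i) ∧ ∀ i, gram (fun i => t i • γ i) i i = c i := by
  classical
  set n := finrank ℝ V with hn
  let b : Basis (Fin n) ℝ V := finBasis ℝ V
  let L : Dual ℝ V ≃ₗ[ℝ] (Fin n → ℝ) := (b.constr ℝ).symm
  have hL : ∀ (φ : Dual ℝ V) (k : Fin n), L φ k = φ (b k) := fun φ k => rfl
  set x : ι → Fin n → ℝ := fun i => L (γ i) with hx
  have hspan : ∀ F : Set ι, span ℝ (x '' F) = (span ℝ (γ '' F)).map L.toLinearMap := by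
    intro F
    rw [Submodule.map_span, ← Set.image_comp]
    rfl
  have hxs : span ℝ (Set.range x) = ⊤ := by
    rw [← Set.image_univ, hspan, Set.image_univ, hs, Submodule.map_top, LinearEquiv.range]
  have hfr : ∀ F : Set ι, finrank ℝ (span ℝ (x '' F)) = finrank ℝ (span ℝ (γ '' F)) := by
    intro F
    rw [hspan]
    exact LinearEquiv.finrank_map_eq L _
  obtain ⟨δ, hδ, hδF⟩ : ∃ δ : ℝ, 0 < δ ∧ ∀ F : Finset ι, F.Nonempty → F ≠ Finset.univ →
      ∑ i ∈ F, c i + δ ≤ finrank ℝ (span ℝ (x '' (F : Set ι))) := by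
    set S : Finset (Finset ι) := Finset.univ.filter fun F => F.Nonempty ∧ F ≠ Finset.univ with hS
    rcases S.eq_empty_or_nonempty with h0 | h0
    · refine ⟨1, one_pos, fun F h1 h2 => ?_⟩
      have : F ∈ S := by simp [hS, h1, h2]
      rw [h0] at this
      simp at this
    · obtain ⟨F₀, hF₀, hmin⟩ := Finset.exists_min_image S
        (fun F => (finrank ℝ (span ℝ (x '' (F : Set ι))) : ℝ) - ∑ i ∈ F, c i) h0
      rw [hS, Finset.mem_filter] at hF₀
      refine ⟨(finrank ℝ (span ℝ (x '' (F₀ : Set ι))) : ℝ) - ∑ i ∈ F₀, c i, ?_,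
        fun F h1 h2 => ?_⟩
      · rw [hfr]
        have := hrk F₀ hF₀.2.1 hF₀.2.2
        linarith
      · have := hmin F (by simp [hS, h1, h2])
        linarith
  obtain ⟨w, hw, hwc⟩ := exists_scaling_coord x hxs c hc δ hδ hδF
  refine ⟨fun i => Real.sqrt (w i), fun i => Real.sqrt_pos.mpr (hw i), fun i => ?_⟩
  set β : ι → Dual ℝ V := fun i => Real.sqrt (w i) • γ i with hβ
  have hsβ : span ℝ (Set.range β) = ⊤ := by
    rw [eq_top_iff, ← hs, span_le]
    rintro _ ⟨j, rfl⟩
    have h1 : γ j = (Real.sqrt (w j))⁻¹ • β j := by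
      simp only [hβ, smul_smul]
      rw [inv_mul_cancel₀ (Real.sqrt_pos.mpr (hw j)).ne', one_smul]
    rw [h1]
    exact Submodule.smul_mem _ _ (subset_span ⟨j, rfl⟩)
  set u : V := vee β (β i) with hu
  have hspec := vee_spec hsβ (β i)
  -- the coordinates of `u`
  set y : Fin n → ℝ := fun k => b.repr u k with hy
  have hγu : ∀ j, γ j u = x j ⬝ᵥ y := by
    intro j
    conv_lhs => rw [← b.sum_repr u]
    rw [map_sum]
    simp only [dotProduct, map_smul, smul_eq_mul, hy, hx, hL]
    exact Finset.sum_congr rfl fun k _ => mul_comm _ _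
  have hMy : MM x w *ᵥ y = Real.sqrt (w i) • x i := by
    funext k
    have h1 := hspec (b k)
    have h2 : form β u (b k) = (MM x w *ᵥ y) k := by
      unfold form MM
      rw [Matrix.sum_mulVec]
      simp only [Finset.sum_apply, Matrix.smul_mulVec, Pi.smul_apply, smul_eq_mul]
      apply Finset.sum_congr rfl
      intro j _
      rw [Matrix.vecMulVec_mulVec]
      simp only [hβ, LinearMap.smul_apply, smul_eq_mul, Pi.smul_apply, MulOpposite.smul_eq_mul_unop,
        MulOpposite.unop_op, hγu j, hx, hL]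
      have h3 := Real.mul_self_sqrt (hw j).le
      linear_combination (L (γ j) ⬝ᵥ y) * (γ j (b k)) * h3
    rw [← h2, h1]
    simp only [hβ, LinearMap.smul_apply, smul_eq_mul, Pi.smul_apply, hx, hL]
  have hdet : IsUnit (MM x w).det := (MM_det_pos x hxs w hw).ne'.isUnit
  have hy2 : y = (MM x w)⁻¹ *ᵥ (Real.sqrt (w i) • x i) := by
    rw [← hMy, Matrix.mulVec_mulVec, Matrix.nonsing_inv_mul _ hdet, Matrix.one_mulVec]
  have hg : gram β i i = β i u := rfl
  rw [hg]
  simp only [hβ, LinearMap.smul_apply, smul_eq_mul]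
  rw [hγu, hy2, Matrix.mulVec_smul, dotProduct_smul, smul_eq_mul, ← hwc i, ← mul_assoc,
    Real.mul_self_sqrt (hw i).le]

end Pool.Agent.VeeR
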